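import Pool.Agent.W559.Wr.Stm

set_option autoImplicit false

universe u

namespace Pool.Agent.W177.Wr

open IntermediateField Polynomial

section

variable {k M : Type u} [Field k] [Field M] [Algebra k M]

/-- sum over a finite group of automorphisms -/
noncomputable def tr (G : Subgroup (M ≃ₐ[k] M)) [Fintype G] (x : M) : M := ∑ σ : G, σ.1 x

theorem tr_fixed (G : Subgroup (M ≃ₐ[k] M)) [Fintype G] (x : M) : tr G x ∈ fixedField G := by
  rw [mem_fixedField_iff]
  intro f hf
  unfold tr
  rw [map_sum]
  refine Fintype.sum_equiv (Equiv.mulLeft (⟨f, hf⟩ : G)) _ _ fun σ => ?_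
  rfl

theorem tr_mem (G : Subgroup (M ≃ₐ[k] M)) [Fintype G] (L : IntermediateField k M)
    (hL : ∀ σ ∈ G, ∀ x ∈ L, σ x ∈ L) {x : M} (hx : x ∈ L) : tr G x ∈ L :=
  sum_mem fun σ _ => hL σ.1 σ.2 x hx

theorem tr_mul (G : Subgroup (M ≃ₐ[k] M)) [Fintype G] {c : M} (hc : c ∈ fixedField G) (x : M) :
    tr G (c * x) = c * tr G x := by
  rw [mem_fixedField_iff] at hc
  unfold tr
  rw [Finset.mul_sum]
  refine Finset.sum_congr rfl fun σ _ => ?_
  rw [map_mul, hc σ.1 σ.2]

/-- an element of `L` of trace one -/
theorem exists_tr_one (G : Subgroup (M ≃ₐ[k] M)) [Fintype G] (L : IntermediateField k M)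
    (hL : ∀ σ ∈ G, ∀ x ∈ L, σ x ∈ L) (hf : ∀ σ ∈ G, (∀ x ∈ L, σ x = x) → σ = 1) :
    ∃ a ∈ L, tr G a = 1 := by
  classical
  have hinj : Function.Injective (fun σ : G =>
      ((σ.1 : M →* M).comp (L.val : L →* M) : L →* M)) := by
    intro σ τ h
    have h1 : ∀ x ∈ L, (σ⁻¹ * τ : G).1 x = x := by
      intro x hx
      have h2 : σ.1 x = τ.1 x := DFunLike.congr_fun h (⟨x, hx⟩ : L)
      change σ.1⁻¹ (τ.1 x) = x
      rw [← h2]
      exact AlgEquiv.symm_apply_apply σ.1 x
    have h3 := hf _ (σ⁻¹ * τ : G).2 h1
    have h4 : σ⁻¹ * τ = 1 := Subtype.ext h3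
    exact (inv_mul_eq_one.mp h4)
  have hli := (linearIndependent_monoidHom L M).comp _ hinj
  have hne : ∃ y ∈ L, tr G y ≠ 0 := by
    by_contra hcon
    push Not at hcon
    have h1 := (Fintype.linearIndependent_iff.mp hli) (fun _ => (1 : M)) (by
      funext y
      have h2 := hcon y.1 y.2
      simp only [one_smul, Finset.sum_apply, Pi.zero_apply, Function.comp_apply]
      exact h2) 1
    exact one_ne_zero h1
  obtain ⟨y, hy, hty⟩ := hne
  refine ⟨(tr G y)⁻¹ * y, L.mul_mem (L.inv_mem (tr_mem G L hL hy)) hy, ?_⟩
  rw [tr_mul G ((fixedField G).inv_mem (tr_fixed G y)), inv_mul_cancel₀ hty]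

/-- elements of `L` are algebraic over the invariants in `L` -/
theorem isAlgebraic_of (G : Subgroup (M ≃ₐ[k] M)) [Fintype G] (L M0 : IntermediateField k M)
    (hL : ∀ σ ∈ G, ∀ x ∈ L, σ x ∈ L) (hM : L ⊓ fixedField G ≤ M0) {x : M} (hx : x ∈ L) :
    IsAlgebraic M0 x := by
  classical
  set P := MulSemiringAction.charpoly G x with hP
  have h1 : P ∈ Polynomial.lifts (algebraMap L M) := by
    rw [hP, MulSemiringAction.charpoly_eq]
    refine prod_mem fun σ _ => ?_
    have h2 : σ.1 x ∈ L := hL σ.1 σ.2 x hx
    refine (Polynomial.mem_lifts _).mpr ⟨X - C (⟨σ.1 x, h2⟩ : L), ?_⟩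
    rw [Polynomial.map_sub, Polynomial.map_X, Polynomial.map_C]
    rfl
  rw [Polynomial.lifts_iff_coeff_lifts] at h1
  have h3 : P ∈ Polynomial.lifts (algebraMap M0 M) := by
    rw [Polynomial.lifts_iff_coeff_lifts]
    intro n
    refine ⟨⟨P.coeff n, hM ⟨?_, ?_⟩⟩, rfl⟩
    · obtain ⟨c, hc⟩ := h1 n
      rw [← hc]
      exact c.2
    · change _ ∈ fixedField G
      rw [mem_fixedField_iff]
      intro f hf
      exact MulSemiringAction.smul_coeff_charpoly x n (⟨f, hf⟩ : G)
  obtain ⟨Q, hQ⟩ := (Polynomial.mem_lifts _).mp h3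
  refine ⟨Q, ?_, ?_⟩
  · intro h0
    rw [h0, Polynomial.map_zero] at hQ
    exact (MulSemiringAction.monic_charpoly G x).ne_zero hQ.symm
  · rw [← Polynomial.eval_map_algebraMap, hQ]
    exact MulSemiringAction.eval_charpoly G x

end

theorem adjoin_top {k M : Type u} [Field k] [Field M] [Algebra k M] (M0 : IntermediateField k M)
    {J : Type} (L : J → IntermediateField k M) (hL : ⨆ j, L j = ⊤) (T : Set M)
    (hT : ∀ j, ∀ y ∈ L j, y ∈ T) : IntermediateField.adjoin M0 T = ⊤ := by
  rw [eq_top_iff]
  intro x _
  have h4 : (⨆ j, L j) ≤ (IntermediateField.adjoin M0 T).restrictScalars k := by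
    refine iSup_le fun j y hy => ?_
    rw [IntermediateField.mem_restrictScalars]
    exact IntermediateField.subset_adjoin M0 T (hT j y hy)
  rw [hL] at h4
  exact (IntermediateField.mem_restrictScalars k).mp (h4 (IntermediateField.mem_top (x := x)))

theorem gal : Pool.Agent.W559.Wr.GalStm.{u} := by
  intro k M _ _ _ J _ G _ L hGL hGL' hL
  classical
  have hfin : ∀ j, Fintype (G j) := fun j => Fintype.ofFinite _
  set M0 : IntermediateField k M := ⨆ j, L j ⊓ fixedField (G j) with hM0
  have hA : ∀ j, L j ⊓ fixedField (G j) ≤ M0 := fun j => le_iSup (fun j => L j ⊓ fixedField (G j)) j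
  -- `L j'` is fixed by `G j`
  have hLf : ∀ j j', j ≠ j' → L j' ≤ fixedField (G j) := by
    intro j j' hj x hx
    rw [mem_fixedField_iff]
    exact fun f hf => hGL' j j' hj f hf x hx
  have hM0f : ∀ j, M0 ≤ fixedField (G j) := by
    intro j
    refine iSup_le fun j' => ?_
    by_cases hj : j = j'
    · subst hj
      exact inf_le_right
    · exact inf_le_left.trans (hLf j j' hj)
  have hfix : ∀ x, x ∈ fixedField (⨆ j, G j) ↔ ∀ j, x ∈ fixedField (G j) := by
    intro x
    constructor
    · intro hx j
      rw [mem_fixedField_iff] at hx ⊢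
      exact fun f hf => hx f (Subgroup.mem_iSup_of_mem j hf)
    · intro hx
      have h1 : (⨆ j, G j) ≤ (IntermediateField.adjoin k {x}).fixingSubgroup := by
        refine iSup_le fun j => ?_
        rw [← IntermediateField.le_iff_le, IntermediateField.adjoin_simple_le_iff]
        exact hx j
      rw [← IntermediateField.le_iff_le, IntermediateField.adjoin_simple_le_iff] at h1
      exact h1
  -- faithfulness
  have hff : ∀ j, ∀ σ ∈ G j, (∀ x ∈ L j, σ x = x) → σ = 1 := by
    intro j σ hσ h
    have h1 : ∀ j', L j' ≤ fixedField (Subgroup.zpowers σ) := by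
      intro j'
      rw [IntermediateField.le_iff_le, Subgroup.zpowers_le, IntermediateField.mem_fixingSubgroup_iff]
      by_cases hj : j = j'
      · subst hj
        exact h
      · exact fun x hx => hGL' j j' hj σ hσ x hx
    have h2 : (⊤ : IntermediateField k M) ≤ fixedField (Subgroup.zpowers σ) := by
      rw [← hL]
      exact iSup_le h1
    ext x
    have h3 := h2 (IntermediateField.mem_top (x := x))
    rw [mem_fixedField_iff] at h3
    exact h3 σ (Subgroup.mem_zpowers σ)
  have htr : ∀ j, ∃ a ∈ L j, tr (G j) a = 1 := fun j =>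
    exists_tr_one (G j) (L j) (hGL j) (hff j)
  choose a haL ha1 using htr
  -- the rings
  let R : Finset J → Subalgebra M0 M := fun S => Algebra.adjoin M0 (⋃ j ∈ (Sᶜ : Finset J), (L j : Set M))
  have hR0 : R ∅ = ⊤ := by
    have h1 : ∀ x ∈ (⋃ j ∈ ((∅ : Finset J)ᶜ : Finset J), (L j : Set M)), IsAlgebraic M0 x := by
      intro x hx
      rw [Set.mem_iUnion₂] at hx
      obtain ⟨j, _, hj⟩ := hx
      exact isAlgebraic_of (G j) (L j) M0 (hGL j) (hA j) hj
    have h2 := IntermediateField.adjoin_toSubalgebra_of_isAlgebraic h1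
    change Algebra.adjoin M0 _ = ⊤
    rw [← h2]
    rw [adjoin_top M0 L hL _ (fun j y hy => by
      rw [Set.mem_iUnion₂]
      exact ⟨j, by simp, hy⟩)]
    rfl
  have key : ∀ S : Finset J, ∀ x : M, (∀ j ∈ S, x ∈ fixedField (G j)) → x ∈ R S := by
    intro S
    induction S using Finset.induction_on with
    | empty =>
      intro x _
      rw [hR0]
      exact Algebra.mem_top
    | insert i S hi ih =>
      intro x hx
      have h1 : x ∈ R S := ih x fun j hj => hx j (Finset.mem_insert_of_mem hj)
      set R' := R (insert i S) with hR'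
      -- elements of `R'` are fixed by `G i`
      have hR'f : ∀ r ∈ R', r ∈ fixedField (G i) := by
        intro r hr
        have h2 : R' ≤ ({ carrier := (fixedField (G i) : Set M)
                          mul_mem' := fun ha hb => mul_mem ha hb
                          add_mem' := fun ha hb => add_mem ha hb
                          algebraMap_mem' := fun c => hM0f i c.2 } : Subalgebra M0 M) := by
          refine Algebra.adjoin_le ?_
          intro y hy
          rw [Set.mem_iUnion₂] at hy
          obtain ⟨j, hj, hyj⟩ := hy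
          have hji : i ≠ j := by
            rintro rfl
            simp at hj
          exact hLf i j hji hyj
        exact h2 hr
      have h2 : x ∈ Submodule.span R' (L i : Set M) := by
        have h3 : R S ≤ (Algebra.adjoin R' (L i : Set M)).restrictScalars M0 := by
          refine Algebra.adjoin_le ?_
          intro y hy
          rw [Set.mem_iUnion₂] at hy
          obtain ⟨j, hj, hyj⟩ := hy
          by_cases hji : j = i
          · subst hji
            exact Algebra.subset_adjoin hyj
          · have h4 : y ∈ R' := by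
              refine Algebra.subset_adjoin ?_
              rw [Set.mem_iUnion₂]
              refine ⟨j, ?_, hyj⟩
              rw [Finset.mem_compl, Finset.mem_insert, not_or]
              exact ⟨hji, Finset.mem_compl.mp hj⟩
            exact (Algebra.adjoin R' (L i : Set M)).algebraMap_mem ⟨y, h4⟩
        have h5 : x ∈ Subalgebra.toSubmodule (Algebra.adjoin R' (L i : Set M)) := h3 h1
        rw [Algebra.adjoin_eq_span] at h5
        have h6 : ((Submonoid.closure (L i : Set M) : Submonoid M) : Set M) = (L i : Set M) := by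
          have h7 : Submonoid.closure (L i : Set M) = (L i).toSubalgebra.toSubmonoid := by
            refine le_antisymm ?_ Submonoid.subset_closure
            exact Submonoid.closure_le.mpr (fun y hy => hy)
          rw [h7]
          rfl
        rwa [h6] at h5
      have h8 : ∀ z ∈ Submodule.span R' (L i : Set M), tr (G i) (a i * z) ∈ R' := by
        intro z hz
        induction hz using Submodule.span_induction with
        | mem y hy =>
          have h9 : tr (G i) (a i * y) ∈ L i ⊓ fixedField (G i) :=
            ⟨tr_mem (G i) (L i) (hGL i) ((L i).mul_mem (haL i) hy), tr_fixed (G i) _⟩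
          exact R'.algebraMap_mem ⟨_, hA i h9⟩
        | zero =>
          rw [mul_zero]
          have : tr (G i) 0 = 0 := by
            unfold tr
            simp
          rw [this]
          exact R'.zero_mem
        | add y z _ _ hy hz =>
          have : tr (G i) (a i * (y + z)) = tr (G i) (a i * y) + tr (G i) (a i * z) := by
            unfold tr
            rw [mul_add, ← Finset.sum_add_distrib]
            exact Finset.sum_congr rfl fun σ _ => map_add _ _ _
          rw [this]
          exact R'.add_mem hy hz
        | smul r y _ hy =>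
          have : a i * (r • y) = r.1 * (a i * y) := by
            change a i * (r.1 * y) = _
            ring
          rw [this, tr_mul (G i) (hR'f r.1 r.2)]
          exact R'.mul_mem r.2 hy
      have h10 := h8 x h2
      rw [mul_comm, tr_mul (G i) (hx i (Finset.mem_insert_self _ _)), ha1, mul_one] at h10
      exact h10
  apply le_antisymm
  · intro x hx
    have h1 := key Finset.univ x (fun j _ => (hfix x).mp hx j)
    have h2 : R Finset.univ = ⊥ := by
      change Algebra.adjoin M0 _ = ⊥
      simp
    rw [h2, Algebra.mem_bot] at h1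
    obtain ⟨c, hc⟩ := h1
    rw [← hc]
    exact c.2
  · intro x hx
    exact (hfix x).mpr fun j => hM0f j hx

end Pool.Agent.W177.Wr
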